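import Mathlib

open Polynomial

namespace FFT

theorem lin_disj {R E N : Type*} [Field R] [CharZero R] [Field E] [Algebra R E] [Field N]
    [Algebra R N] [Algebra E N]
    [IsScalarTower R E N] [Algebra.IsAlgebraic R E] (L Rl : IntermediateField R N) (hle : Rl ≤ L)
    (hR : ∀ f ∈ L, IsAlgebraic R f → f ∈ Rl) (hRa : ∀ f ∈ Rl, IsAlgebraic R f)
    {ι : Type*} (v : ι → N) (hv : ∀ i, v i ∈ L) (hi : LinearIndependent Rl v) :
    LinearIndependent E v := by
  classical
  have : CharZero Rl := charZero_of_injective_algebraMap (algebraMap R Rl).injective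
  rw [linearIndependent_iff']
  intro s e he
  -- the finite extension generated by the coefficients
  let F0 : IntermediateField Rl N := IntermediateField.adjoin Rl ((fun i => algebraMap E N (e i)) '' (s : Set ι))
  have halgE : ∀ x : E, IsIntegral R (algebraMap E N x) := fun x =>
    ((Algebra.IsAlgebraic.isAlgebraic (R := R) x).isIntegral).algebraMap
  have : FiniteDimensional Rl F0 := by
    have : Finite ((fun i => algebraMap E N (e i)) '' (s : Set ι)) := (s.finite_toSet.image _)
    apply IntermediateField.finiteDimensional_adjoin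
    rintro x ⟨i, -, rfl⟩
    exact (halgE (e i)).tower_top
  let pb := Field.powerBasisOfFiniteOfSeparable Rl F0
  set θ : N := (pb.gen : N) with hθdef
  have hθint : IsIntegral Rl θ := (IsIntegral.of_finite Rl pb.gen).map F0.val
  have hθR : IsIntegral R θ := by
    have : Algebra.IsIntegral R Rl := ⟨fun x => by
      have := (hRa x x.2).isIntegral
      exact (isIntegral_algebraMap_iff (algebraMap Rl N).injective).1 this⟩
    exact isIntegral_trans _ hθint
  have hθL : IsIntegral L θ := hθR.tower_top
  -- coefficients of the minimal polynomial over L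
  set g : L[X] := minpoly L θ with hg
  have hgm : g.Monic := minpoly.monic hθL
  have hdvd : g ∣ (minpoly R θ).map (algebraMap R L) := minpoly.dvd_map_of_isScalarTower R L θ
  have hlift := integralClosure.mem_lifts_of_monic_of_dvd_map (R := R) L (minpoly.monic hθR) hgm hdvd
  have hcoef : ∀ n, ((g.coeff n : L) : N) ∈ Rl := by
    intro n
    apply hR _ (g.coeff n).2
    rw [Polynomial.lifts_iff_coeff_lifts] at hlift
    obtain ⟨a, ha⟩ := hlift n
    have h1 : IsIntegral R (g.coeff n) := by
      rw [← ha]; exact a.2
    exact (h1.map (L.val)).isAlgebraic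
  have hdeg : (minpoly Rl θ).natDegree ≤ g.natDegree := by
    -- lift
    have h2 : g.map (algebraMap L N) ∈ Polynomial.lifts (algebraMap Rl N) := by
      rw [Polynomial.lifts_iff_coeff_lifts]
      intro n
      rw [Polynomial.coeff_map]
      exact ⟨⟨_, hcoef n⟩, rfl⟩
    obtain ⟨g', hg'⟩ := (Polynomial.mem_lifts _).1 h2
    have hd' : g'.natDegree = g.natDegree := by
      have := congrArg Polynomial.natDegree hg'
      rwa [Polynomial.natDegree_map, Polynomial.natDegree_map] at this
    have hg0 : g' ≠ 0 := by
      rintro rfl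
      rw [Polynomial.map_zero] at hg'
      exact hgm.ne_zero ((Polynomial.map_eq_zero _).1 hg'.symm)
    have hroot : Polynomial.aeval θ g' = 0 := by
      have h3 : Polynomial.aeval θ g' = Polynomial.eval θ (g'.map (algebraMap Rl N)) := by
        rw [Polynomial.eval_map, Polynomial.aeval_def]
      rw [h3, hg', Polynomial.eval_map, ← Polynomial.aeval_def, hg, minpoly.aeval]
    rw [← hd']
    exact Polynomial.natDegree_le_of_dvd (minpoly.dvd _ _ hroot) hg0
  have hdim : pb.dim ≤ g.natDegree := by
    have h4 : pb.dim = (minpoly Rl θ).natDegree := by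
      rw [← pb.natDegree_minpoly, hθdef]
      congr 1
      exact (minpoly.algebraMap_eq (algebraMap F0 N).injective pb.gen).symm
    rw [h4]; exact hdeg
  have hlin : LinearIndependent L (fun i : Fin pb.dim => θ ^ (i : ℕ)) := by
    have h5 := linearIndependent_pow (K := L) θ
    exact h5.comp (Fin.castLE hdim) (Fin.castLE_injective hdim)
  have hc : ∀ i ∈ s, ∃ c : Fin pb.dim → Rl,
      algebraMap E N (e i) = ∑ j, (c j : N) * θ ^ (j : ℕ) := by
    intro i his
    have hm : algebraMap E N (e i) ∈ F0 :=
      IntermediateField.subset_adjoin _ _ ⟨i, his, rfl⟩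
    refine ⟨fun j => pb.basis.repr ⟨_, hm⟩ j, ?_⟩
    have h6 := pb.basis.sum_repr ⟨_, hm⟩
    have h7 := congrArg (fun z : F0 => (z : N)) h6
    simp only at h7
    refine h7.symm.trans ?_
    simp only [PowerBasis.coe_basis]
    rw [← IntermediateField.coe_val, map_sum]
    refine Finset.sum_congr rfl fun j _ => ?_
    rw [map_smul, map_pow, Algebra.smul_def]
    rfl
  choose! c hc using hc
  have hmem : ∀ j, ∑ i ∈ s, (c i j : N) * v i ∈ L := fun j =>
    sum_mem fun i _ => mul_mem (hle (c i j).2) (hv i)
  have hsum : ∑ j : Fin pb.dim, (⟨∑ i ∈ s, (c i j : N) * v i, hmem j⟩ : L) • θ ^ (j : ℕ) = 0 := by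
    have h8 : ∑ j : Fin pb.dim, (∑ i ∈ s, (c i j : N) * v i) * θ ^ (j : ℕ) = 0 := by
      rw [← he]
      simp_rw [Finset.sum_mul]
      rw [Finset.sum_comm]
      refine Finset.sum_congr rfl fun i his => ?_
      rw [Algebra.smul_def, hc i his, Finset.sum_mul]
      refine Finset.sum_congr rfl fun j _ => ?_
      ring
    exact h8
  have hz := Fintype.linearIndependent_iff.1 hlin _ hsum
  have hz' : ∀ j, ∑ i ∈ s, (c i j) • v i = 0 := by
    intro j
    have h9 := congrArg (fun z : L => (z : N)) (hz j)
    exact h9
  intro i his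
  have hc0 : ∀ j, c i j = 0 := fun j =>
    (linearIndependent_iff'.1 hi s (fun i => c i j) (hz' j)) i his
  have h10 := hc i his
  simp only [hc0] at h10
  have h11 : algebraMap E N (e i) = 0 := by
    rw [h10]; simp
  exact (map_eq_zero _).1 h11

end FFT
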